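import Pool.Agent.Q44.JQ.X.Facts
import Pool.Agent.Q44.JQ.X.MomD

/-!
# All joint moments of the orders of the 2-Selmer groups of the quadratic twists of several elliptic curves

Let `E_1, …, E_n` be elliptic curves `y ^ 2 = (x - a k 0) (x - a k 1) (x - a k 2)` over `ℚ` with
different integers `a k i` of sum 0 (every elliptic curve over `ℚ` with full rational 2-torsion has such an
equation), such that

* no product `(a k i - a k j) (a k i - a k l)` with different `i, j, l` is a square (`E_k` has no rational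
  cyclic subgroup of order 4);
* for `k ≠ l` there is no bijection `σ` of the roots such that all the products
  `(a k i - a k j) (a l (σ i) - a l (σ j))`, `i ≠ j`, are squares (the modules `E_k[4]` and `E_l[4]` are not
  isomorphic).

`E_{k,D}` is the quadratic twist by `D`, with the roots `D a k i`. The theorem: for all exponents
`j_1, …, j_n ≥ 0` the mean of

`∏_k #Sel_2(E_{k,D}) ^ {j_k}`

over **all** squarefree integers `D` with `|D| ≤ X` converges for `X → ∞` to

`∏_k 4 ^ {j_k} ∏_{i = 1}^{j_k} (1 + 2 ^ i)`.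

(As `#Sel_2(E_{k,D}) = 4 · 2 ^ rank · #Ш(E_{k,D})[2]`, the mean of `∏_k (2 ^ rank #Ш[2]) ^ {j_k}` converges to
`∏_k ∏_{i = 1}^{j_k} (1 + 2 ^ i)`, the product of the moments of the random model of Poonen and Rains.) For
instance the mean of `#Sel_2(E_{1,D}) #Sel_2(E_{2,D})` is 144: the orders of the 2-Selmer groups of different
curves are uncorrelated, and so are all their powers. The same is true in every class: for a finite set
`S` of primes which contains 2 and the prime divisors of the differences of the roots, the mean over the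
squarefree integers `D` with given sign and given class in `ℚ_l ^ * / ℚ_l ^ (* 2)` for `l` in `S` has the
same limit, in particular for the even and for the odd parities of the dimensions.

The proof: the limits of the frequencies are computed from the moments for the integers `D` with a fixed
small part, see `MP_e23604_nt.JointSelmerLaw`; by the uniform upper bounds for all the moments of the orders
of the Selmer groups over all twists (a starting file, with the double oscillation theorem and the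
linear algebra of unlinked indices) the tails are small.
-/

set_option autoImplicit false
set_option linter.all false

namespace Pool.Agent.Results.MP_8cb858_nt.JointSelmerMoments

open Filter Topology
open Pool.Agent.Y667.SX (Sel2H)
open Pool.Agent.TH841.SH.D (Sha)
open scoped Classical

/-- The curve `y ^ 2 = (x - a 0) (x - a 1) (x - a 2)`, for `a 0 + a 1 + a 2 = 0`. -/
def curve (a : Fin 3 → ℤ) : WeierstrassCurve ℚ :=
  ⟨0, 0, 0, ((a 0 * a 1 + a 0 * a 2 + a 1 * a 2 : ℤ) : ℚ), ((-(a 0 * a 1 * a 2) : ℤ) : ℚ)⟩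

/-- The roots `D a i` of the quadratic twist by `D`. -/
def twist (D : ℤ) (a : Fin 3 → ℤ) : Fin 3 → ℤ := fun i => D * a i

/-- The product of the differences of one root with the two others is not a square: the curve has no
rational cyclic subgroup of order 4. -/
def NoCyclicFour (a : Fin 3 → ℤ) : Prop :=
  ∀ i j l, i ≠ j → i ≠ l → j ≠ l → ∀ s : ℤ, (a i - a j) * (a i - a l) ≠ s ^ 2

/-- The differences of the roots are equal modulo squares for some bijection of the roots: the modules of
the points of order dividing 4 are isomorphic. -/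
def Matched (a b : Fin 3 → ℤ) : Prop :=
  ∃ σ : Equiv.Perm (Fin 3), ∀ i j, i ≠ j → ∃ s : ℤ, (a i - a j) * (b (σ i) - b (σ j)) = s ^ 2

/-- The squarefree integers `D` with `|D| ≤ X`. -/
def All (X : ℕ) : Set ℤ := {D | |D| ≤ X ∧ Squarefree D}

/-- The squarefree integers `D` with `|D| ≤ X`, with the sign of `D₀` and with the class of `D₀` modulo
squares in `ℚ_l` for the primes `l` in `S`. -/
def Class (S : Finset ℕ) (D₀ : ℤ) (X : ℕ) : Set ℤ :=
  {D | |D| ≤ X ∧ Squarefree D ∧ 0 < D * D₀ ∧
    ∀ (l : ℕ) [Fact l.Prime], l ∈ S → IsSquare ((D * D₀ : ℤ) : ℚ_[l])}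

/-- The mean of `g` over the finite set `A`. -/
noncomputable def mean (A : Set ℤ) (g : ℤ → ℝ) : ℝ := (∑ᶠ D ∈ A, g D) / (A.ncard : ℝ)

/-- The product of the powers of the orders of the 2-Selmer groups of the twists by `D`. -/
noncomputable def selmerProduct {κ : Type} [Fintype κ] (a : κ → Fin 3 → ℤ) (j : κ → ℕ) (D : ℤ) : ℝ :=
  ∏ k, (Nat.card (Sel2H (curve (twist D (a k)))) : ℝ) ^ j k

/-- The limit `∏_k 4 ^ {j_k} ∏_{i = 1}^{j_k} (1 + 2 ^ i)`. -/
noncomputable def limit {κ : Type} [Fintype κ] (j : κ → ℕ) : ℝ :=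
  ∏ k, (4 ^ j k * ∏ i ∈ Finset.range (j k), (1 + (2 : ℝ) ^ (i + 1)))

theorem mean_eq (X : ℕ) (C : ℤ → Prop) (g : ℤ → ℝ) : mean {D | |D| ≤ X ∧ C D} g =
    (∑ D ∈ (Finset.Icc (-(X : ℤ)) X).filter (fun D => C D), g D) /
      (((Finset.Icc (-(X : ℤ)) X).filter fun D => C D).card : ℝ) := by
  unfold mean
  rw [Q44.JQ.W.ncard_Icc X C (i := fun D => Classical.propDecidable _)]
  congr 1
  rw [← finsum_mem_coe_finset]
  refine finsum_mem_congr ?_ fun _ _ => rfl
  ext D
  rw [Finset.mem_coe, Finset.mem_filter, Finset.mem_Icc, ← abs_le]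
  rfl

theorem result (κ : Type) [Fintype κ] (a : κ → Fin 3 → ℤ) (ha : ∀ k, Function.Injective (a k))
    (h0 : ∀ k, a k 0 + a k 1 + a k 2 = 0) (h4 : ∀ k, NoCyclicFour (a k))
    (hne : ∀ k l, k ≠ l → ¬ Matched (a k) (a l)) :
    (∀ D : ℤ, Squarefree D → ∀ k, ∀ W : WeierstrassCurve ℚ, W = curve (twist D (a k)) →
      Finite (Sel2H W) ∧ Finite {x : Sha W // x + x = 0} ∧
      Nat.card (Sel2H W) = 4 * (2 ^ Module.finrank ℤ W.toAffine.Point *
        Nat.card {x : Sha W // x + x = 0})) ∧
    ∀ j : κ → ℕ,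
      Tendsto (fun X : ℕ => mean (All X) (selmerProduct a j)) atTop (𝓝 (limit j)) ∧
      ∀ (S : Finset ℕ), (∀ l ∈ S, l.Prime) → 2 ∈ S →
        (∀ k i i', i ≠ i' → ∀ l : ℕ, l.Prime → (l : ℤ) ∣ a k i - a k i' → l ∈ S) →
        ∀ D₀ : ℤ, Squarefree D₀ →
          Tendsto (fun X : ℕ => mean (Class S D₀ X) (selmerProduct a j)) atTop (𝓝 (limit j)) := by
  have hn : ∀ k l, k ≠ l → ∀ σ : Equiv.Perm (Fin 3), ∃ i j, i ≠ j ∧
      ∀ s : ℤ, (a k i - a k j) * (a l (σ i) - a l (σ j)) ≠ s ^ 2 := by
    intro k l hkl σ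
    have h := hne k l hkl
    unfold Matched at h
    push Not at h
    exact h σ
  obtain ⟨S₀, hS₀⟩ : ∃ S₀ : Finset ℕ, S₀ = insert 2 (Finset.univ.biUnion fun k : κ =>
      Finset.univ.biUnion fun i : Fin 3 => Finset.univ.biUnion fun i' : Fin 3 =>
        (a k i - a k i').natAbs.primeFactors) := ⟨_, rfl⟩
  have hp : ∀ l ∈ S₀, l.Prime := by
    intro l hl
    rw [hS₀, Finset.mem_insert] at hl
    rcases hl with rfl | hl
    · exact Nat.prime_two
    · simp only [Finset.mem_biUnion, Finset.mem_univ, true_and] at hl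
      obtain ⟨k, i, i', hl⟩ := hl
      exact Nat.prime_of_mem_primeFactors hl
  have hb : ∀ k i i', i ≠ i' → ∀ l : ℕ, l.Prime → (l : ℤ) ∣ a k i - a k i' → l ∈ S₀ := by
    intro k i i' hi l hl hd
    rw [hS₀, Finset.mem_insert]
    right
    simp only [Finset.mem_biUnion, Finset.mem_univ, true_and]
    refine ⟨k, i, i', Nat.mem_primeFactors.2 ⟨hl, Int.natCast_dvd.1 hd, ?_⟩⟩
    exact Int.natAbs_ne_zero.2 (sub_ne_zero.2 fun h => hi (ha k h))
  have h2S : 2 ∈ S₀ := by rw [hS₀]; exact Finset.mem_insert_self _ _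
  let E₀ : Q44.JQ.X.Ey κ := ⟨a, ha, h0, h4, hn, S₀, ⟨hp, h2S⟩, hb⟩
  refine ⟨?_, fun j => ⟨?_, fun S hS h2 hbad D₀ hD₀ => ?_⟩⟩
  · rintro D hD k W rfl
    obtain ⟨c1, c2, c3, c4⟩ := (E₀.out Q44.JQ.X.factsY).1 D hD k
    refine ⟨c1, c3, ?_⟩
    have c5 : Nat.card (Sel2H (curve (twist D (a k)))) =
      2 ^ (2 + Q44.JQ.X.sr (curve (twist D (a k)))) := c2
    have c6 : 2 ^ Module.finrank ℤ (curve (twist D (a k))).toAffine.Point *
        Nat.card {x : Sha (curve (twist D (a k))) // x + x = 0} =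
          2 ^ Q44.JQ.X.sr (curve (twist D (a k))) := c4
    rw [c5, c6, pow_add]
    norm_num
  · have h := E₀.mom_all Q44.JQ.X.factsY j (fun D => Squarefree D) fun _ => Iff.rfl
    refine h.congr fun X => ?_
    exact (mean_eq X _ _).symm
  · let E : Q44.JQ.X.Ey κ := ⟨a, ha, h0, h4, hn, S, ⟨hS, h2⟩, hbad⟩
    have h := E.mom_one Q44.JQ.X.factsY j D₀ hD₀ (fun D => Squarefree D ∧ E.Cond D₀ D)
      fun _ => Iff.rfl
    refine h.congr fun X => ?_
    exact (mean_eq X _ _).symm

end Pool.Agent.Results.MP_8cb858_nt.JointSelmerMoments
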