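import Pool.Agent.Q155.GN.Mom
import Pool.Agent.Q155.GN.SelL

/-!
# The exact law of the Selmer groups of the multiplication by `1 + i` for the curves `y² = x³ + D x` over `ℚ(i)`

`K` is a number field with an isomorphism `e` of `ℤ[i]` with its ring of integers (so `K = ℚ(i)`). For `B ∈ Kˣ` the curve
`y² = x³ + B x` has complex multiplication by `ℤ[i]`, the connecting map of the multiplication by `1 + i` is
`(x, y) ↦ x` modulo squares, and `Selmer K B ⊆ Kˣ / Kˣ²` is its Selmer group. `D` runs over the squarefree Gaussian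
integers `≡ 1 mod 2 + 2i` with `N(D) ≡ c mod 16`, ordered by the norm, prime to given `m₁, …, m_M`, with
`c N(m_k) ≡ 5 mod 8`. Let `2 ^ (s_k + 1)` be the order of the Selmer group of `y² = x³ + D m_k x`; it is also the order of the
Selmer group of the quadratic twist `y² = x³ - (D m_k)² x`. Then `(s₁, …, s_M)` has the limit law `∏ α(s_k)`,
`α(b) = κ / ((2 - 1) (4 - 1) ⋯ (2 ^ b - 1))` (the law of the coranks of large random symmetric matrices over the
field with two elements), in the strong sense: for all functions of at most linear growth in the orders; in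
particular the mean order is `4`.
-/

set_option autoImplicit false

open Finset Filter NumberField Topology IsDedekindDomain

namespace Pool.Agent.Results.MP_8cb858_nt.QuarticTwistSelmerLaw

/-- `D ≡ 1 mod 2 + 2i`. -/
def Primary (D : GaussianInt) : Prop := (⟨2, 2⟩ : GaussianInt) ∣ D - 1

/-- `κ = ∏ (1 - 2^{-(2i+1)}) = 0.4194…` -/
noncomputable def κ : ℝ := ∏' i : ℕ, (1 - (1 / 2 : ℝ) ^ (2 * i + 1))

/-- The limit law `α_b = κ / ((2 - 1) (4 - 1) ⋯ (2 ^ b - 1))`. -/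
noncomputable def α (b : ℕ) : ℝ := κ / ∏ i ∈ Finset.range b, ((2 : ℝ) ^ (i + 1) - 1)

/-- The squarefree `D ≡ 1 mod 2 + 2i` of norm at most `X` and `≡ c mod 16`, prime to the `m k`. -/
def Family {M : ℕ} (m : Fin M → GaussianInt) (c : ℤ) (X : ℕ) : Set GaussianInt :=
  {D | Primary D ∧ Squarefree D ∧ D.norm ≤ X ∧ D.norm % 16 = c ∧ ∀ k, IsCoprime D (m k)}

/-- The classes modulo squares. -/
abbrev SquareClasses (K : Type) [Field K] : Type := Kˣ ⧸ (powMonoidHom 2 : Kˣ →* Kˣ).range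

/-- The class of `b` modulo squares is the image of a point of `y² = x³ + B x` over `L`: the class of `1` for the point at
infinity, of `B` for `(0, 0)`, of `x` for the other points. -/
def Image (L : Type) [Field L] (B b : L) : Prop :=
  ∃ z : L, z ≠ 0 ∧ (b = z ^ 2 ∨ b = B * z ^ 2 ∨
    ∃ x y : L, x ≠ 0 ∧ y ^ 2 = x ^ 3 + B * x ∧ b = x * z ^ 2)

/-- The Selmer group of the multiplication by `1 + i` on `y² = x³ + B x` over `K = ℚ(i)`: the classes which are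
everywhere locally images of points. -/
def Selmer (K : Type) [Field K] [NumberField K] (B : K) : Set (SquareClasses K) :=
  {q | ∃ b : Kˣ, (b : SquareClasses K) = q ∧ ∀ v : HeightOneSpectrum (𝓞 K),
    Image (v.adicCompletion K) (algebraMap K (v.adicCompletion K) B)
      (algebraMap K (v.adicCompletion K) (b : K))}

/-- The order of the Selmer group of `y² = x³ + D x`. -/
noncomputable def order {K : Type} [Field K] [NumberField K] (e : GaussianInt ≃+* 𝓞 K)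
    (D : GaussianInt) : ℕ := Nat.card (Selmer K (algebraMap (𝓞 K) K (e D)))

/-- The order of the Selmer group of `y² = x³ - D² x`. -/
noncomputable def orderTwist {K : Type} [Field K] [NumberField K] (e : GaussianInt ≃+* 𝓞 K)
    (D : GaussianInt) : ℕ := Nat.card (Selmer K (-(algebraMap (𝓞 K) K (e D)) ^ 2))

open _root_.Q155.GN (Fm Fa mem_Fm nrm_mul' norm_nrm cb)
open Pool.Agent.Y699 (PS PD)
open H385 (nrm)

lemma kappa : κ = _root_.Q155.KG.al 0 := _root_.Q155.KG.al_zero.symm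

lemma ps_iff {D : GaussianInt} : PS D ↔ Primary D ∧ Squarefree D :=
  ⟨fun h => ⟨(Pool.Agent.W164.RC.prim_iff_dvd D).1 h.prm, h.sqf⟩,
    fun h => ⟨(Pool.Agent.W164.RC.prim_iff_dvd D).2 h.1, h.2⟩⟩

/-- The family as a finite set. -/
lemma family_eq {M : ℕ} (m : Fin M → GaussianInt) (c : ℕ) (X : ℕ) :
    Family m c X = ↑(Fm (Fa m c) X) := by
  ext D
  rw [Finset.mem_coe, mem_Fm, ps_iff]
  unfold Family Fa
  rw [Set.mem_ofPred_eq, norm_nrm D]
  constructor
  · rintro ⟨h1, h2, h3, h4, h5⟩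
    exact ⟨⟨by exact_mod_cast h3, h1, h2⟩, by exact_mod_cast h4, h5⟩
  · rintro ⟨⟨h3, h1, h2⟩, h4, h5⟩
    exact ⟨h1, h2, by exact_mod_cast h3, by exact_mod_cast h4, h5⟩

lemma order_eq {K : Type} [Field K] [NumberField K] (e : GaussianInt ≃+* 𝓞 K) {D : GaussianInt}
    (hD : PS D) (h : nrm D % 8 = 5) : order e D = 2 ^ (_root_.Q155.GN.bb (PD D) + 1) :=
  _root_.Q155.GN.card_SelB e _root_.Q155.GN.ing3 _root_.Q155.GN.ing.sym (_root_.Q155.GN.pp_PD hD)
    (_root_.Q155.GN.od_of hD h) (Or.inl (by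
      show algebraMap (𝓞 K) K (e D) = Pool.Agent.Y715.Z.em0 e (∏ π ∈ PD D, π)
      rw [hD.prod]
      rfl))

lemma orderTwist_eq {K : Type} [Field K] [NumberField K] (e : GaussianInt ≃+* 𝓞 K) {D : GaussianInt}
    (hD : PS D) (h : nrm D % 8 = 5) : orderTwist e D = 2 ^ (_root_.Q155.GN.bb (PD D) + 1) :=
  _root_.Q155.GN.card_SelB e _root_.Q155.GN.ing3 _root_.Q155.GN.ing.sym (_root_.Q155.GN.pp_PD hD)
    (_root_.Q155.GN.od_of hD h) (Or.inr (by
      show -(algebraMap (𝓞 K) K (e D)) ^ 2 = -(Pool.Agent.Y715.Z.em0 e (∏ π ∈ PD D, π)) ^ 2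
      rw [hD.prod]
      rfl))

lemma hasSum_mean : HasSum (fun b : ℕ => (2 : ℝ) ^ (b + 1) * α b) 4 := by
  have h1 : ∀ b : ℕ, 0 ≤ (2 : ℝ) ^ (b + 1) * α b := fun b =>
    mul_nonneg (by positivity) (_root_.Q155.KG.al_nonneg b)
  rw [hasSum_iff_tendsto_nat_of_nonneg h1]
  have h2 := _root_.Q155.NL.hasSum_al.tendsto_sum_nat
  have h3 := (((tendsto_add_atTop_iff_nat 1).2 h2).add h2).const_mul 2
  rw [show (2 : ℝ) * (1 + 1) = 4 by norm_num] at h3
  rw [← tendsto_add_atTop_iff_nat 1]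
  refine h3.congr fun B => ?_
  rw [← _root_.Q155.NL.mean_al, Finset.mul_sum]
  refine Finset.sum_congr rfl fun b _ => ?_
  show 2 * (2 ^ b * _root_.Q155.KG.al b) = 2 ^ (b + 1) * _root_.Q155.KG.al b
  ring

/-- The joint law. -/
lemma joint {K : Type} [Field K] [NumberField K] (e : GaussianInt ≃+* 𝓞 K)
    (M : ℕ) (m : Fin M → GaussianInt) (hm : Function.Injective m)
    (hp : ∀ k, Primary (m k) ∧ Squarefree (m k)) (c : ℤ) (hc : c = 1 ∨ c = 5 ∨ c = 9 ∨ c = 13)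
    (h : ∀ k, c * (m k).norm % 8 = 5) :
      (∃ δ : ℝ, 0 < δ ∧ ∀ᶠ X : ℕ in atTop, δ * X ≤ ((Family m c X).ncard : ℝ)) ∧
      (∀ X : ℕ, ∀ D ∈ Family m c X, ∀ k, ∃ b : ℕ, order e (D * m k) = 2 ^ (b + 1) ∧
        orderTwist e (D * m k) = 2 ^ (b + 1)) ∧
      ∀ (g : (Fin M → ℕ) → ℝ) (C : ℝ), (∀ n, |g n| ≤ C * ∑ k, (n k : ℝ)) →
        Summable (fun b : Fin M → ℕ => g (fun k => 2 ^ (b k + 1)) * ∏ k, α (b k)) ∧
        Tendsto (fun X : ℕ => (∑ᶠ D ∈ Family m c X, g (fun k => order e (D * m k))) /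
          (Family m c X).ncard) atTop
          (𝓝 (∑' b : Fin M → ℕ, g (fun k => 2 ^ (b k + 1)) * ∏ k, α (b k))) := by
  obtain ⟨c, rfl⟩ : ∃ n : ℕ, c = n := by
    rcases hc with rfl | rfl | rfl | rfl
    · exact ⟨1, rfl⟩
    · exact ⟨5, rfl⟩
    · exact ⟨9, rfl⟩
    · exact ⟨13, rfl⟩
  have hc1 : c < 16 := by omega
  have hc2 : c % 4 = 1 := by omega
  have hps : ∀ k, PS (m k) := fun k => ps_iff.2 (hp k)
  have hcn : ∀ k, c * nrm (m k) % 8 = 5 := by
    intro k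
    have h1 := h k
    rw [norm_nrm (m k)] at h1
    exact_mod_cast h1
  have hD : ∀ k D, PS D → Fa m c D → PS (D * m k) := fun k D h1 h2 =>
    _root_.Q155.GN.PS_mul h1 (hps k) (h2.2 k)
  have h8 : ∀ k (D : GaussianInt), Fa m c D → nrm (D * m k) % 8 = 5 := by
    intro k D hF
    have h2 := hcn k
    have h3 : nrm (D * m k) % 16 = c * nrm (m k) % 16 := by
      rw [nrm_mul', Nat.mul_mod, hF.1]
      conv_rhs => rw [Nat.mul_mod, Nat.mod_eq_of_lt hc1]
    omega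
  refine ⟨?_, fun X D hDF k => ?_, fun g C hg => ?_⟩
  · obtain ⟨δ, h1, h2⟩ := _root_.Q155.GN.fam_low hps hc1 hc2
    refine ⟨δ, h1, h2.mono fun X hX => ?_⟩
    rw [family_eq, Set.ncard_coe_finset]
    exact hX
  · rw [family_eq, Finset.mem_coe, mem_Fm] at hDF
    exact ⟨_, order_eq e (hD k D hDF.1.2 hDF.2) (h8 k D hDF.2),
      orderTwist_eq e (hD k D hDF.1.2 hDF.2) (h8 k D hDF.2)⟩
  · have hg' : ∀ b : Fin M → ℕ, |g fun k => 2 ^ (b k + 1)| ≤ (2 * max C 0) * ∑ k, (2 : ℝ) ^ b k := by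
      intro b
      refine (hg _).trans ?_
      have e1 : ∑ k, ((2 ^ (b k + 1) : ℕ) : ℝ) = 2 * ∑ k, (2 : ℝ) ^ b k := by
        rw [Finset.mul_sum]
        refine Finset.sum_congr rfl fun k _ => ?_
        push_cast
        ring
      rw [e1]
      have e2 : (0 : ℝ) ≤ 2 * ∑ k, (2 : ℝ) ^ b k :=
        mul_nonneg (by norm_num) (Finset.sum_nonneg fun k _ => by positivity)
      calc C * (2 * ∑ k, (2 : ℝ) ^ b k) ≤ max C 0 * (2 * ∑ k, (2 : ℝ) ^ b k) :=
            mul_le_mul_of_nonneg_right (le_max_left _ _) e2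
        _ = _ := by ring
    obtain ⟨k1, k2⟩ := _root_.Q155.GN.law_g hm hps hc1 hc2 hcn (fun b => g fun k => 2 ^ (b k + 1))
      (mul_nonneg (by norm_num) (le_max_right C 0)) hg'
    refine ⟨k1, k2.congr fun X => ?_⟩
    rw [family_eq, finsum_mem_coe_finset, Set.ncard_coe_finset]
    congr 1
    refine Finset.sum_congr rfl fun D hDF => ?_
    rw [mem_Fm] at hDF
    congr 1
    funext k
    exact (order_eq e (hD k D hDF.1.2 hDF.2) (h8 k D hDF.2)).symm

/-- **Main theorem.** -/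
theorem result {K : Type} [Field K] [NumberField K] (e : GaussianInt ≃+* 𝓞 K) :
    (0.4194 < κ ∧ κ < 0.4195) ∧ HasSum α 1 ∧
    (∀ (M : ℕ) (m : Fin M → GaussianInt), Function.Injective m →
      (∀ k, Primary (m k) ∧ Squarefree (m k)) → ∀ c : ℤ, (c = 1 ∨ c = 5 ∨ c = 9 ∨ c = 13) →
      (∀ k, c * (m k).norm % 8 = 5) →
      (∃ δ : ℝ, 0 < δ ∧ ∀ᶠ X : ℕ in atTop, δ * X ≤ ((Family m c X).ncard : ℝ)) ∧
      (∀ X : ℕ, ∀ D ∈ Family m c X, ∀ k, ∃ b : ℕ, order e (D * m k) = 2 ^ (b + 1) ∧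
        orderTwist e (D * m k) = 2 ^ (b + 1)) ∧
      ∀ (g : (Fin M → ℕ) → ℝ) (C : ℝ), (∀ n, |g n| ≤ C * ∑ k, (n k : ℝ)) →
        Summable (fun b : Fin M → ℕ => g (fun k => 2 ^ (b k + 1)) * ∏ k, α (b k)) ∧
        Tendsto (fun X : ℕ => (∑ᶠ D ∈ Family m c X, g (fun k => order e (D * m k))) /
          (Family m c X).ncard) atTop
          (𝓝 (∑' b : Fin M → ℕ, g (fun k => 2 ^ (b k + 1)) * ∏ k, α (b k)))) ∧
    ∀ m : GaussianInt, Primary m → Squarefree m → ∀ c : ℤ, (c = 1 ∨ c = 5 ∨ c = 9 ∨ c = 13) →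
      c * m.norm % 8 = 5 →
      Tendsto (fun X : ℕ => (∑ᶠ D ∈ Family (fun _ : Fin 1 => m) c X, (order e (D * m) : ℝ)) /
        (Family (fun _ : Fin 1 => m) c X).ncard) atTop (𝓝 4) := by
  refine ⟨by rw [kappa, _root_.Q155.KG.al_zero]; exact ⟨_root_.Q155.KG.c2_gt, _root_.Q155.KG.c2_lt⟩,
    _root_.Q155.NL.hasSum_al, fun M m hm hp c hc h => joint e M m hm hp c hc h, ?_⟩
  intro m hm1 hm2 c hc h
  obtain ⟨-, -, h3⟩ := joint e 1 (fun _ => m) (fun i j _ => Subsingleton.elim i j)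
    (fun _ => ⟨hm1, hm2⟩) c hc (fun _ => h)
  obtain ⟨-, h4⟩ := h3 (fun n => (n 0 : ℝ)) 1 (fun n => by
    rw [abs_of_nonneg (Nat.cast_nonneg _), one_mul, Fin.sum_univ_one])
  have h5 : ∑' b : Fin 1 → ℕ, (((2 ^ (b 0 + 1) : ℕ) : ℝ)) * ∏ k, α (b k) = 4 := by
    rw [← hasSum_mean.tsum_eq, ← (Equiv.funUnique (Fin 1) ℕ).symm.tsum_eq]
    refine tsum_congr fun b => ?_
    rw [Fin.prod_univ_one]
    push_cast
    rfl
  rw [← h5]
  exact h4

end Pool.Agent.Results.MP_8cb858_nt.QuarticTwistSelmerLaw
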