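import Mathlib
import Pool.Agent.Q269.JM.Fn
import Pool.Agent.Q269.JM.Eu

/-!
# The moments of the orders of the 2-Selmer groups of quadratic twists over `F_q(t)`, `q` fixed

Let `k` be a finite field of characteristic different from `2` in which `-1` is a square, `K = k(t)`, and
let `E : y² = x (x - a) (x - b)` be an elliptic curve over `K`, where `a`, `b` are coprime polynomials, `a`,
`b`, `a - b` have the same degree `N` and none of `a b`, `a (a - b)`, `b (a - b)` is a constant multiple of
a square. `E_D : y² = x (x - a D) (x - b D)` are the quadratic twists of `E`. Let `NonSplitTwists a b n` be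
the set of the monic squarefree polynomials `D` of degree `n`, prime to `a b (a - b)`, for which `E_D` has
non-split multiplicative reduction at all the finite places at which `E` has bad reduction, and let `n` go to
infinity through the numbers with `n + N` odd; these `D` are a positive proportion of all the monic
polynomials of degree `n`. A multiplier is a monic squarefree polynomial `m` of even degree that is a
nonzero square modulo all the prime divisors of `a b (a - b)`; for instance `m = 1`. Let `m_0, m_1, …` be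
different multipliers, and let `s_i(D)` be the order of the 2-Selmer group of `E_{D m_i}` over `K`
(all the elements are counted: those of the image of `E_{D m_i}(K)[2]`, of order `4`, too).

* For every `M` and every real function `f` of polynomial growth on `ℕ ^ M`, the mean over the class of
  `f (s_0(D), …, s_{M-1}(D))` converges to `∑_r f (4^{r_0 + 1}, …, 4^{r_{M-1} + 1}) ∏_i 2 C_{2, 2 r_i}`, where
  `C_{2, d}` are the numbers of Poonen and Rains (so `r ↦ 2 C_{2, 2 r}` is their law, conditioned to the even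
  dimensions).
* All the joint moments converge: for all exponents `e_0, …, e_{M-1}` the mean of `∏_i s_i(D) ^ e_i`
  converges to `∏_i 4^{e_i} ∏_{1 ≤ j ≤ e_i} (1 + 2^j)`. In particular the mean order of the 2-Selmer group is
  `12`, that is `3` after the division by the order of the torsion, as predicted.
* The mean of `∏_i (2^{rank E_{D m_i}(K)}) ^ e_i` is at most `∏_i ∏_{1 ≤ j ≤ e_i} (1 + 2^j) + ε` for all large
  `n`; in particular the mean of `2^{rank}` is at most `3 + ε`.
-/

set_option autoImplicit false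

namespace Pool.Agent.Results.MP_8cb858_nt.SelmerMoments

open Polynomial Filter Pool.Agent.TH115.GD
open scoped Classical

/-- The polynomial `f` is not a square modulo `Q` (in particular it is not divisible by `Q`). -/
def NonSquareMod {k : Type} [Field k] (Q f : k[X]) : Prop := ∀ h : k[X], ¬ Q ∣ h ^ 2 - f

/-- The polynomial `f` is not a constant multiple of a square. -/
def NotConstSquare {k : Type} [Field k] (f : k[X]) : Prop := ∀ (c : k) (h : k[X]), f ≠ C c * h ^ 2

/-- The monic squarefree polynomials `D` of degree `n` for which `b D` is not a square modulo the prime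
divisors of `a` and `a D` is not a square modulo the prime divisors of `b (a - b)`. -/
def NonSplitTwists {k : Type} [Field k] (a b : k[X]) (n : ℕ) : Set k[X] :=
  {D | D.Monic ∧ D.natDegree = n ∧ Squarefree D ∧
    (∀ Q : k[X], Irreducible Q → Q ∣ a → NonSquareMod Q (b * D)) ∧
    (∀ Q : k[X], Irreducible Q → Q ∣ b * (a - b) → NonSquareMod Q (a * D))}

/-- The multipliers: the monic squarefree polynomials of even degree that are nonzero squares modulo the
prime divisors of `a b (a - b)`. -/
structure Multiplier {k : Type} [Field k] (a b m : k[X]) : Prop where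
  monic : m.Monic
  squarefree : Squarefree m
  even : Even m.natDegree
  square : ∀ Q : k[X], Irreducible Q → Q ∣ a * b * (a - b) → ¬ Q ∣ m ∧ ∃ h : k[X], Q ∣ h ^ 2 - m

/-- The curve `E_D : y ^ 2 = x (x - a D) (x - b D)` over `K = k(t)`. -/
noncomputable def twist {k : Type} [Field k] (K : Type) [Field K] [Algebra k[X] K]
    (a b D : k[X]) : WeierstrassCurve K :=
  crv (algebraMap k[X] K (a * D)) (algebraMap k[X] K (b * D))

/-- The 2-Selmer group of a curve `W` over `K = k(t)` whose points of order two are rational: the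
continuous cocycles with values in the group of the points of order at most two (on which the Galois group
acts trivially, so that these cocycles are the cohomology classes) that are coboundaries in `W` at all the
places of `K`, the infinite place included. -/
def Sel (k : Type) {K : Type} [Field k] [Field K] [Algebra k[X] K] [IsFractionRing k[X] K]
    (W : WeierstrassCurve K) : Set ((Sep K ≃ₐ[K] Sep K) → Pt W (Sep K)) :=
  {f | IsCoc W f ∧ (∀ σ, f σ + f σ = 0) ∧ LocallyTrivial k W f}

/-- The mean of the function `g` over `NonSplitTwists a b n` (a finite set). -/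
noncomputable def mean {k : Type} [Field k] (a b : k[X]) (g : k[X] → ℝ) (n : ℕ) : ℝ :=
  (∑ᶠ D ∈ NonSplitTwists a b n, g D) / (((NonSplitTwists a b n).ncard : ℕ) : ℝ)

/-- `n` goes to infinity with `n + N` odd. -/
def degrees (N : ℕ) : Filter ℕ := atTop ⊓ 𝓟 {n | Odd (n + N)}

/-- The numbers of Poonen and Rains for `p = 2`:
`C_{2, d} = ∏_{j ≥ 0} (1 + 2^{-j})^{-1} ∏_{1 ≤ i ≤ d} 2 / (2^i - 1)`. -/
noncomputable def poonenRains (d : ℕ) : ℝ :=
  (∏' j : ℕ, (1 + (1 / 2 : ℝ) ^ j)⁻¹) * ∏ i ∈ Finset.range d, 2 / ((2 : ℝ) ^ (i + 1) - 1)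

/-- The law of Poonen and Rains on the even dimensions `2 r`: `law r = 2 C_{2, 2 r}`. -/
noncomputable def law (r : ℕ) : ℝ := 2 * poonenRains (2 * r)

section proof

open Q283.FS Pool.Agent.Y164.PS Pool.Agent.Q269.JM

theorem cf_eq (j : ℕ) : Pool.Agent.Y697.PQ.cf j = 1 / ∏ i ∈ Finset.range j, ((2 : ℝ) ^ (i + 1) - 1) := by
  induction j with
  | zero => simp [Pool.Agent.Y697.PQ.cf]
  | succ j ih =>
    rw [Pool.Agent.Y697.PQ.cf, ih, Finset.prod_range_succ, div_div]

theorem law_eq (r : ℕ) : lw r = law r := by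
  unfold lw law poonenRains
  rw [cf_eq, pr_eq, ← odd_eq, Finset.prod_div_distrib, Finset.prod_const, Finset.card_range, pow_mul]
  unfold Pool.Agent.Y703.CQ.c2
  norm_num
  ring

variable {k : Type} [Field k] [Fintype k] [DecidableEq k] {a b : k[X]} {N : ℕ}

theorem mean_eq (H : Hyp a b N) (g : k[X] → ℝ) (n : ℕ) :
    mean a b g n = (∑ D ∈ Cn a b n, g D) / ((Cn a b n).card : ℝ) := by
  have e2 := ncard_cls' H n
  show (∑ᶠ D ∈ cls a b n, g D) / (((cls a b n).ncard : ℕ) : ℝ) = _
  rw [e2]
  congr 1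
  rw [← finsum_mem_coe_finset]
  refine finsum_mem_congr ?_ fun _ _ => rfl
  ext D
  rw [Finset.mem_coe, mem_Cn H]

end proof

open Q283.FS Pool.Agent.Y164.PS Pool.Agent.Q269.JM in
theorem result (k : Type) [Field k] [Finite k] (h2 : (2 : k) ≠ 0) (hi : IsSquare (-1 : k))
    (K : Type) [Field K] [Algebra k[X] K] [IsFractionRing k[X] K] (a b : k[X]) (N : ℕ)
    (hco : IsCoprime a b) (ha : a.natDegree = N) (hb : b.natDegree = N)
    (hab : (a - b).natDegree = N) (h₁ : NotConstSquare (a * b))
    (h₂ : NotConstSquare (a * (a - b))) (h₃ : NotConstSquare (b * (a - b))) :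
    (∃ c : ℝ, 0 < c ∧ ∀ᶠ n : ℕ in degrees N,
      c * (Nat.card k : ℝ) ^ n ≤ (((NonSplitTwists a b n).ncard : ℕ) : ℝ)) ∧
    ∀ (M : ℕ) (m : Fin M → k[X]), (∀ i, Multiplier a b (m i)) → Function.Injective m →
      (∀ f : (Fin M → ℕ) → ℝ, (∃ (C : ℝ) (c : ℕ), ∀ s, |f s| ≤ C * ∏ i, (s i : ℝ) ^ c) →
        Summable (fun r : Fin M → ℕ => f (fun i => 4 ^ (r i + 1)) * ∏ i, law (r i)) ∧
        Tendsto (mean a b fun D => f fun i => Nat.card (Sel k (twist K a b (D * m i)))) (degrees N)
          (nhds (∑' r : Fin M → ℕ, f (fun i => 4 ^ (r i + 1)) * ∏ i, law (r i)))) ∧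
      (∀ e : Fin M → ℕ,
        Tendsto (mean a b fun D => ∏ i, (Nat.card (Sel k (twist K a b (D * m i))) : ℝ) ^ e i)
          (degrees N) (nhds (∏ i, (4 ^ e i * ∏ j ∈ Finset.range (e i), (1 + 2 ^ (j + 1)))))) ∧
      (∀ (e : Fin M → ℕ) (ε : ℝ), 0 < ε → ∀ᶠ n in degrees N,
        mean a b (fun D => ∏ i, ((2 : ℝ) ^ Module.finrank ℤ (Pt (twist K a b (D * m i)) K)) ^ e i) n ≤
          (∏ i, ∏ j ∈ Finset.range (e i), (1 + 2 ^ (j + 1))) + ε) := by
  let _ : Fintype k := Fintype.ofFinite k
  have H : Hyp a b N := mk_hyp h2 hi hco ha hb hab h₁ h₂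
  have hq := four_le h2 hi
  have h2t := two_types H h₁ h₂ h₃
  have hlaw : lw = law := funext law_eq
  refine ⟨?_, fun M m hm hinj => ?_⟩
  · obtain ⟨c, hc, h⟩ := Cn_lower H hq h2t
    refine ⟨c, hc, ?_⟩
    rw [degrees, eventually_inf_principal]
    filter_upwards [h] with n hn ho
    have e2 := ncard_cls' H n
    show _ ≤ (((cls a b n).ncard : ℕ) : ℝ)
    rw [e2, Nat.card_eq_fintype_card]
    exact hn (par_cast ho)
  have hm' : ∀ i, Mlt a b (m i) := fun i => ⟨(hm i).monic, (hm i).squarefree, (hm i).even, (hm i).square⟩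
  have ar : ∀ {n : ℕ} {D : k[X]}, Odd (n + N) → D ∈ Cn a b n → ∀ i,
      Nat.card (Sel k (twist K a b (D * m i))) = 4 ^ (rr H (pf (m i)) D + 1) :=
    fun ho hD i => (arith (K := K) H hD ho (hm' i)).1
  have hMsk : Msk a b (fun i => pf (m i)) := msk H hm' hinj
  -- the general statement for the functions of the exponents
  have gen : ∀ (f : (Fin M → ℕ) → ℝ) (C0 : ℝ) (c : ℕ), (∀ r, |f r| ≤ C0 * ∏ i, ((4 : ℝ) ^ r i) ^ c) →
      Summable (fun r : Fin M → ℕ => f r * ∏ i, law (r i)) ∧
      Tendsto (fun n => (∑ D ∈ Cn a b n, f (fun i => rr H (pf (m i)) D)) / ((Cn a b n).card : ℝ))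
        (degrees N) (nhds (∑' r : Fin M → ℕ, f r * ∏ i, law (r i))) := by
    intro f C0 c hf
    rw [← hlaw]
    constructor
    · obtain ⟨e, he⟩ : ∃ e : ℕ, Odd (e + N) := ⟨N + 1, by
        rw [Nat.odd_iff]
        omega⟩
      exact (mean_f (mts_Cn H hMsk hq h2t (par_cast he)) hf).1
    · exact tendsto_par fun e he => (mean_f (mts_Cn H hMsk hq h2t (par_cast he)) hf).2
  have trans : ∀ (g : k[X] → ℝ) (f : (Fin M → ℕ) → ℝ) (x : ℝ),
      (∀ n, Odd (n + N) → ∀ D ∈ Cn a b n, g D = f (fun i => rr H (pf (m i)) D)) →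
      Tendsto (fun n => (∑ D ∈ Cn a b n, f (fun i => rr H (pf (m i)) D)) / ((Cn a b n).card : ℝ))
        (degrees N) (nhds x) → Tendsto (mean a b g) (degrees N) (nhds x) := by
    intro g f x hg h
    refine h.congr' ?_
    rw [EventuallyEq, degrees, eventually_inf_principal]
    refine Eventually.of_forall fun n ho => ?_
    rw [mean_eq H, Finset.sum_congr rfl fun D hD => hg n ho D hD]
  -- the moments
  have mom : ∀ e : Fin M → ℕ, ∑' r : Fin M → ℕ, (∏ i, ((4 : ℝ) ^ r i) ^ e i) * ∏ i, law (r i) =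
      ∏ i, ∏ j ∈ Finset.range (e i), (1 + 2 ^ (j + 1)) := by
    intro e
    rw [← hlaw]
    have h1 := Q283.T3B.hasSum_pi (M := M) (fun i s => lw s * (4 ^ s) ^ e i)
      (fun i => Ex fun x => x ^ e i)
      (fun _ r => mul_nonneg (lw_pos r).le (by positivity)) (fun i => (Pl_pow (e i)).hasSum)
    rw [Finset.prod_congr rfl fun i _ => (Ex_pow (e i)).symm, ← h1.tsum_eq]
    refine tsum_congr fun r => ?_
    rw [← Finset.prod_mul_distrib]
    exact Finset.prod_congr rfl fun i _ => mul_comm _ _
  have bd : ∀ (e : Fin M → ℕ) (r : Fin M → ℕ), |∏ i, ((4 : ℝ) ^ r i) ^ e i| ≤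
      1 * ∏ i, ((4 : ℝ) ^ r i) ^ (∑ i, e i) := by
    intro e r
    rw [abs_of_nonneg (Finset.prod_nonneg fun i _ => by positivity), one_mul]
    refine Finset.prod_le_prod (fun i _ => by positivity) fun i _ => ?_
    refine pow_le_pow_right₀ (one_le_pow₀ (by norm_num)) ?_
    exact Finset.single_le_sum (f := fun i => e i) (fun _ _ => Nat.zero_le _) (Finset.mem_univ i)
  refine ⟨fun f hf => ?_, fun e => ?_, fun e ε hε => ?_⟩
  · obtain ⟨C0, c, hf⟩ := hf
    have hf' : ∀ r : Fin M → ℕ, |f (fun i => 4 ^ (r i + 1))| ≤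
        (C0 * ∏ i : Fin M, (4 : ℝ) ^ c) * ∏ i, ((4 : ℝ) ^ r i) ^ c := by
      intro r
      refine (hf _).trans (le_of_eq ?_)
      rw [mul_assoc, ← Finset.prod_mul_distrib]
      congr 1
      refine Finset.prod_congr rfl fun i _ => ?_
      push_cast
      rw [pow_succ, mul_pow, mul_comm]
    obtain ⟨F, hF⟩ : ∃ F : (Fin M → ℕ) → ℝ, ∀ r, F r = f (fun i => 4 ^ (r i + 1)) := ⟨_, fun _ => rfl⟩
    obtain ⟨g1, g2⟩ := gen F _ c (fun r => by rw [hF]; exact hf' r)
    have e1 : (fun r : Fin M → ℕ => f (fun i => 4 ^ (r i + 1)) * ∏ i, law (r i)) =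
        fun r => F r * ∏ i, law (r i) := funext fun r => by rw [hF]
    rw [e1]
    refine ⟨g1, trans (fun D => f fun i => Nat.card (Sel k (twist K a b (D * m i)))) F _
      (fun n ho D hD => ?_) g2⟩
    rw [hF]
    have e2 : (fun i => Nat.card (Sel k (twist K a b (D * m i)))) =
        fun i => 4 ^ (rr H (pf (m i)) D + 1) := funext fun i => ar ho hD i
    rw [e2]
  · obtain ⟨_, g2⟩ := gen (fun r => ∏ i, ((4 : ℝ) ^ r i) ^ e i) 1 _ (bd e)
    rw [mom] at g2
    have g3 := g2.const_mul (∏ i, (4 : ℝ) ^ e i)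
    rw [Finset.prod_mul_distrib]
    refine trans _ (fun r => (∏ i, (4 : ℝ) ^ e i) * ∏ i, ((4 : ℝ) ^ r i) ^ e i) _
      (fun n ho D hD => ?_) (g3.congr fun n => ?_)
    · rw [← Finset.prod_mul_distrib]
      refine Finset.prod_congr rfl fun i _ => ?_
      rw [ar ho hD]
      push_cast
      rw [pow_succ, mul_pow, mul_comm]
    · rw [← Finset.mul_sum, mul_div_assoc]
  · obtain ⟨_, g2⟩ := gen (fun r => ∏ i, ((4 : ℝ) ^ r i) ^ e i) 1 _ (bd e)
    rw [mom] at g2
    have g3 := g2.eventually_lt_const (show _ < _ + ε by exact lt_add_of_pos_right _ hε)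
    rw [degrees, eventually_inf_principal] at g3 ⊢
    filter_upwards [g3] with n hn ho
    refine le_trans ?_ (hn ho).le
    rw [mean_eq H]
    refine div_le_div_of_nonneg_right (Finset.sum_le_sum fun D hD => ?_) (Nat.cast_nonneg _)
    refine Finset.prod_le_prod (fun i _ => by positivity) fun i _ => ?_
    refine pow_le_pow_left₀ (by positivity) ?_ _
    have h3 := (arith (K := K) H hD ho (hm' i)).2.2.1
    calc (2 : ℝ) ^ Module.finrank ℤ (Pt (twist K a b (D * m i)) K) ≤ 2 ^ (2 * rr H (pf (m i)) D) :=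
          pow_le_pow_right₀ (by norm_num) h3
      _ = _ := by rw [pow_mul]; norm_num

end Pool.Agent.Results.MP_8cb858_nt.SelmerMoments
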