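import Pool.Agent.Q161.ESN.Fin

/-!
# All joint moments of the orders of the 2-Selmer groups of ALL quadratic twists over EVERY number field

Let `F` be a number field and `E : y² = x³ + a x + b` an elliptic curve over `F` without `F`-rational point of order
two, and let `E_D : y² = x³ + a D² x + b D³`, `D ∈ F^*`, be its quadratic twists.  We prove that all moments of the
orders of the 2-Selmer groups `Sel₂(E_D/F)` over all quadratic twists are bounded: for every `k` there is a `C` such that
for all `X ≥ 1`

  `∑ #Sel₂(E_D/F)^k ≤ C X`,  `D ∈ F^*/F^*²`, `oddNorm D ≤ X`,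

and more generally the joint moments for finitely many such curves over `F` are bounded.  There are between `X/C` and
`C X` such classes `D`, so the average of `#Sel₂(E_D/F)^k` over all quadratic twists is bounded, and the proportion of the
twists with `dim Sel₂(E_D/F) ≥ d` is `O_k(2^(-k d))` for every `k`.

`oddNorm D` is the norm of the product of the prime ideals of `F` at which the valuation of `D` is odd; it depends only on
the class of `D` modulo squares, that is, on the twist.  `Twists X 𝒟`: the elements of the finite set `𝒟` are nonzero, of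
`oddNorm` at most `X` and in different classes modulo squares; `AllTwists X 𝒟`: in addition `𝒟` meets every class of
nonzero elements of `oddNorm` at most `X`.

The proof (projects ESM, ESF, ESN; `Pool/Agent/Q161`): the 2-descent over `F`, a system of quadratic characters of ray
classes of `F` and of fields containing `F` attached to the elements of a finite semisimple Galois module, and high moments
of these characters (large sieve, Siegel zeros).
Project of helper161 with helpers 14, 24, 26, 38, 63, 65, 68, 79, 92, 96, 121, 123, 124, 129, 147, 149, 150, 151, 153, 166,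
177, 182, 184, 190, 193, 195, 208, 211, 223, 224, 237, 238, 241, 261, 275, 285, 299.
-/

set_option autoImplicit false

namespace Pool.Agent.Results.MP_8cb858_nt.SelmerMomentsAllTwists

open Finset NumberField Pool.Agent.Q161.ESN

open Pool.Agent.Q161.ESF (Sel2)

open scoped Classical

/-- the product of the orders of the 2-Selmer groups of the twists by `D` of the curves `y² = x³ + a i x + b i` -/
noncomputable def selProd {F : Type} [Field F] [NumberField F] {r : ℕ} (a b : Fin r → F) (D : F) : ℝ :=
  ∏ i, (selOrder (a i) (b i) D : ℝ)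

/-- Let `F` be any number field.  (A) For all `X ≥ 1` there are complete sets of representatives of the quadratic twists up
to `X`, and they have between `X/C` and `C X` elements, `C` depending on `F`.  (B) Let `E_i : y² = x³ + a_i x + b_i`,
`1 ≤ i ≤ r`, be elliptic curves over `F` without `F`-rational points of order two and `P(D)` the product of the orders of the
2-Selmer groups over `F` of their twists by `D`.  These groups are finite, and for every `k` there is a `C` such that for all
`X ≥ 1` and all finite sets `𝒟` of representatives of different twists up to `X`: (1) `∑ P(D)^k ≤ C X`; (2) for all `T > 0` the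
number of the `D ∈ 𝒟` with `P(D) ≥ T` is at most `C X / T^k`; (3) `∏ P(D)^k ≤ (C X / |𝒟|)^|𝒟|` if `𝒟` is not empty; and if `𝒟` is
complete (4) the mean of `P(D)^k` over `𝒟` is at most `C` and the proportion of the `D` with `P(D) ≥ T` at most `C / T^k`. -/
theorem result (F : Type) [Field F] [NumberField F] :
    (∃ C : ℝ, 0 < C ∧ ∀ X : ℝ, 1 ≤ X → (∃ 𝒟 : Finset F, AllTwists X 𝒟) ∧
      ∀ 𝒟 : Finset F, AllTwists X 𝒟 → X / C ≤ 𝒟.card ∧ (𝒟.card : ℝ) ≤ C * X) ∧
    ∀ (r : ℕ) (a b : Fin r → F), (∀ i, ∀ x : F, x ^ 3 + a i * x + b i ≠ 0) →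
      (∀ i, ∀ D : F, D ≠ 0 → Finite (Sel2 (tw (a i) (b i) D))) ∧
      ∀ k : ℕ, ∃ C : ℝ, 0 < C ∧ ∀ X : ℝ, 1 ≤ X → ∀ 𝒟 : Finset F,
        (Twists X 𝒟 → (∑ D ∈ 𝒟, selProd a b D ^ k ≤ C * X) ∧
          (∀ T : ℝ, 0 < T → ((𝒟.filter (fun D => T ≤ selProd a b D)).card : ℝ) ≤ C * X / T ^ k) ∧
          (𝒟.Nonempty → ∏ D ∈ 𝒟, selProd a b D ^ k ≤ (C * X / 𝒟.card) ^ 𝒟.card)) ∧
        (AllTwists X 𝒟 → (∑ D ∈ 𝒟, selProd a b D ^ k ≤ C * 𝒟.card) ∧
          ∀ T : ℝ, 0 < T → ((𝒟.filter (fun D => T ≤ selProd a b D)).card : ℝ) ≤
            C * 𝒟.card / T ^ k) :=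
  ⟨t_family F, fun r a b h => ⟨fun i _ hD => fin' t_fin (h i) hD, fun k =>
    bounded (s := selProd a b) (t := selProd a b)
      (fun _ _ => ⟨prod_nonneg fun _ _ => Nat.cast_nonneg _, le_rfl⟩)
      (moments t_goal (Fin r) F a b h k)⟩⟩

end Pool.Agent.Results.MP_8cb858_nt.SelmerMomentsAllTwists
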